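import Pool.Agent.Helper63.QL.Fin
import Pool.Agent.Helper95.QL.Fc
import Pool.Agent.Helper19.QL.FinL

/-! # Project QL: the analytic blocks from the recurrence -/

set_option autoImplicit false

namespace Pool.Agent.Helper63.QL

open MeasureTheory Set Filter Topology
open Pool.Agent.Helper18.ES (lam bb)
open Pool.Agent.Helper63.EQ (nu Adm)
open Pool.Agent.Helper96.EQ (Tf)
open Pool.Agent.Helper99.MS (ell ff GB)
open Pool.Agent.Helper95.QL (pw KJ g1l Hh ZM Hh_bd Hh_re Hh_cont0)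
open Pool.Agent.Helper47.QL (KJ_bd)
open Pool.Agent.Helper19.QL (NearL FarL RecL Blocks quantl_of)

variable {w : ℝ → ℝ} {Cw : ℝ}

/-- the recurrence (statement of `R3q`) -/
def RecStmt : Prop :=
  ∀ B : ℝ, GB (ff lam) B → ∀ k : ℕ, 2 ≤ k → ∀ L : ℝ, 1 ≤ L → ∀ f : ℝ → ℝ, Integrable f → (∀ y, 1 < |y| → f y = 0) →
    ∀ (C₂ CJ F ε Y τ : ℝ) (J : ℕ), (∀ u v : ℝ, 0 ≤ u → ‖Hh (4 * k : ℕ) (v + u)‖ ≤ C₂ * ell u * pw v) →
    (∫ v, pw v * KJ L v ≤ CJ) → 1 ≤ Y → 1 ≤ τ → (J : ℝ) * τ ≤ Real.exp Y → 0 < ε → (∫ y, |f y| ≤ F) →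
    (1 + 48 * (256 * C₂ * F * (Y + 3) * CJ) * (ZM L).card / ε) ^ (2 * (ZM L).card) < (J : ℝ) + 1 →
    ∃ n : ℕ, 1 ≤ n ∧ n ≤ J ∧
      ‖(∫ v, Tf f (Hh (4 * k : ℕ)) (v + n * τ) * (KJ L v : ℂ)) - ∫ v, Tf f (Hh (4 * k : ℕ)) (v + 0) * (KJ L v : ℂ)‖ < ε

/-- the blocks -/
theorem blocks_of (h : Adm w Cw) (hR : RecStmt) : Blocks w := by
  obtain ⟨CH, hCH, hbd⟩ := Hh_bd
  obtain ⟨CN, hCN, hre⟩ := Hh_re
  obtain ⟨CJ, hCJ, hKJ⟩ := KJ_bd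
  refine ⟨CH, CN, CJ, by linarith, by linarith, by linarith, fun B hB k hk m δ L Y hm hδ hL hY => ?_⟩
  have hk2 : 2 ≤ k := by omega
  have hkR : (250 : ℝ) ≤ k := by exact_mod_cast hk
  have hm1 : 1000 ≤ m := by rw [hm]; push_cast; linarith
  obtain ⟨hJ1, hJ2, hJ3⟩ := hKJ L hL
  have hb := hbd B hB k hk2
  have hr := hre k hk2
  have hc := Hh_cont0 hB hk2
  rw [← hm] at hb hr hc
  have hq : 0 ≤ CN * m ^ (-(3 / 16) : ℝ) := by positivity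
  have hδ0 : 0 < δ := by
    rw [hδ]
    have : 0 < √m := Real.sqrt_pos.2 (by linarith)
    positivity
  refine ⟨fun H hH0 hH => ?_, fun u U hu hU0 hU => ?_, ?_⟩
  · rw [← hm]
    exact near_low h hB hm1 hδ hL hq hc hb hr (hJ1 (δ / 2) (by linarith)) hJ2 hH0 hH
  · rw [← hm]
    exact far_up h hm1 hδ hL hq hc hb hr hJ2 hu hU0 hU
  · intro f hf hs F ε τ J hτ hJ hε hF hpig
    refine hR B hB k hk2 L hL f hf hs _ CJ F ε Y τ J ?_ hJ3 hY hτ hJ hε hF hpig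
    rw [← hm]
    exact hb

/-- **the theorem**, over the recurrence -/
theorem quantl_of_rec (h : Adm w Cw) (hR : RecStmt) : ∃ c : ℝ, 0 < c ∧ ∀ X : ℕ, ∃ N : ℕ, X ≤ N ∧
    c * √(N : ℝ) * w (1 - Real.log (Real.log (Real.log N)) ^ 3 / Real.log (Real.log N)) <
      |Pool.Agent.Helper63.EW.S lam w N| := quantl_of h (blocks_of h hR)

end Pool.Agent.Helper63.QL
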