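import Pool.Agent.Helper63.QL.Pig
import Pool.Agent.Helper63.QL.Blk
import Pool.Agent.Helper47.QL.TR

/-! # Project QL: the recurrence and the theorem -/

set_option autoImplicit false

namespace Pool.Agent.Helper63.QL

open MeasureTheory Set Filter Topology
open Pool.Agent.Helper18.ES (lam bb)
open Pool.Agent.Helper63.EQ (nu Adm)
open Pool.Agent.Helper96.EQ (Tf exp_int)
open Pool.Agent.Helper99.MS (ell ff GB ell_nonneg)
open Pool.Agent.Helper95.QL (pw KJ g1l Hh ZM Hh_cont0)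
open Pool.Agent.Helper47.QL (pw_cont one_le_pw pw_pos pw_add KJ_nonneg KJ_meas KJ_int pw_KJ_int Hh_repr)

variable {w : ℝ → ℝ} {Cw B : ℝ}

theorem prod_int {f : ℝ → ℝ} (hf : Integrable f) (hs : ∀ y, 1 < |y| → f y = 0) {g : ℝ → ℂ} (hg : Continuous g) {C L : ℝ}
    (hC : ∀ v, ‖g v‖ ≤ C * pw v) (hL : 0 < L) (u : ℝ) :
    Integrable (fun p : ℝ × ℝ => (f p.2 : ℂ) * g (p.1 + u + p.2) * (KJ L p.1 : ℂ)) (volume.prod volume) := by
  have hC0 := M_nonneg hC
  have h1 : Integrable (fun p : ℝ × ℝ => (256 * C * pw u) * (pw p.1 * KJ L p.1) * |f p.2|) (volume.prod volume) :=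
    ((pw_KJ_int hL).const_mul (256 * C * pw u)).mul_prod hf.abs
  refine Integrable.mono' h1 ?_ ?_
  · apply AEStronglyMeasurable.mul
    · apply AEStronglyMeasurable.mul
      · exact (Complex.continuous_ofReal.comp_aestronglyMeasurable hf.1).comp_snd
      · exact (hg.comp (by fun_prop)).aestronglyMeasurable
    · exact (Complex.continuous_ofReal.comp_aestronglyMeasurable (KJ_meas (L := L))).comp_fst
  · apply Filter.Eventually.of_forall
    rintro ⟨v, y⟩
    have hK := KJ_nonneg hL v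
    have hu := (pw_pos u).le
    have hv := (pw_pos v).le
    simp only
    rw [norm_mul, norm_mul, Complex.norm_real, Complex.norm_real, Real.norm_eq_abs, Real.norm_of_nonneg hK]
    by_cases hy : 1 < |y|
    · rw [hs y hy]
      simp
    · have hy1 := pw_one (not_lt.1 hy)
      have h2 : pw (v + u + y) ≤ pw v * pw u * 256 := by
        refine (pw_add (v + u) y).trans ?_
        exact mul_le_mul (pw_add v u) hy1 (pw_pos y).le (by positivity)
      calc |f y| * ‖g (v + u + y)‖ * KJ L v ≤ |f y| * (C * (pw v * pw u * 256)) * KJ L v := by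
            apply mul_le_mul_of_nonneg_right _ hK
            apply mul_le_mul_of_nonneg_left _ (abs_nonneg _)
            exact (hC _).trans (mul_le_mul_of_nonneg_left h2 hC0)
        _ = _ := by ring

theorem Tf_swap {f : ℝ → ℝ} (hf : Integrable f) (hs : ∀ y, 1 < |y| → f y = 0) {g : ℝ → ℂ} (hg : Continuous g) {C L : ℝ}
    (hC : ∀ v, ‖g v‖ ≤ C * pw v) (hL : 0 < L) (u : ℝ) :
    ∫ v, Tf f g (v + u) * (KJ L v : ℂ) = ∫ y, (f y : ℂ) * ∫ v, g (v + (u + y)) * (KJ L v : ℂ) := by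
  have h1 : ∀ v, Tf f g (v + u) * (KJ L v : ℂ) = ∫ y, (f y : ℂ) * g (v + u + y) * (KJ L v : ℂ) := by
    intro v
    unfold Tf
    rw [integral_mul_const]
  simp_rw [h1]
  rw [integral_integral_swap (prod_int hf hs hg hC hL u)]
  apply integral_congr_ae
  apply Filter.Eventually.of_forall
  intro y
  simp only
  rw [← integral_const_mul]
  apply integral_congr_ae
  apply Filter.Eventually.of_forall
  intro v
  simp only
  rw [add_assoc, mul_assoc]

/-- the spectrum of the average -/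
theorem R1 (h : GB (ff lam) B) {k : ℕ} (hk : 2 ≤ k) {L : ℝ} (hL : 0 < L) {f : ℝ → ℝ} (hf : Integrable f)
    (hs : ∀ y, 1 < |y| → f y = 0) {C : ℝ} (hC : ∀ v, ‖Hh (4 * k : ℕ) v‖ ≤ C * pw v) :
    ∃ b : ℝ → ℂ, ∀ u, ∫ v, Tf f (Hh (4 * k : ℕ)) (v + u) * (KJ L v : ℂ) =
      ∑ γ ∈ ZM L, b γ * Complex.exp (γ * u * Complex.I) := by
  obtain ⟨b, hb⟩ := Hh_repr h hk hL
  refine ⟨fun γ => b γ * ∫ y, (f y : ℂ) * Complex.exp (γ * y * Complex.I), fun u => ?_⟩
  rw [Tf_swap hf hs (Hh_cont0 h hk) hC hL u]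
  have h1 : ∀ y : ℝ, (f y : ℂ) * ∫ v, Hh (4 * k : ℕ) (v + (u + y)) * (KJ L v : ℂ) =
      ∑ γ ∈ ZM L, (b γ * Complex.exp (γ * u * Complex.I)) * ((f y : ℂ) * Complex.exp (γ * y * Complex.I)) := by
    intro y
    rw [hb, Finset.mul_sum]
    apply Finset.sum_congr rfl
    intro γ _
    have e : (γ : ℂ) * ((u + y : ℝ) : ℂ) * Complex.I = γ * u * Complex.I + γ * y * Complex.I := by
      push_cast
      ring
    rw [e, Complex.exp_add]
    ring
  simp_rw [h1]
  rw [integral_finsetSum _ fun γ _ => (exp_int hf γ).const_mul _]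
  apply Finset.sum_congr rfl
  intro γ _
  rw [integral_const_mul]
  ring

/-- the size on the right half line -/
theorem R2 {g : ℝ → ℂ} {f : ℝ → ℝ} (hf : Integrable f) (hs : ∀ y, 1 < |y| → f y = 0) {C L CJ F u : ℝ} (hL : 0 < L)
    (hb : ∀ u v : ℝ, 0 ≤ u → ‖g (v + u)‖ ≤ C * ell u * pw v) (hJ3 : ∫ v, pw v * KJ L v ≤ CJ)
    (hF : ∫ y, |f y| ≤ F) (hu : 0 ≤ u) :
    ‖∫ v, Tf f g (v + u) * (KJ L v : ℂ)‖ ≤ 256 * C * F * CJ * ell u := by
  have hC := M_nonneg (bd0 hb)
  have hl := ell_nonneg u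
  have hF0 : 0 ≤ ∫ y, |f y| := integral_nonneg fun y => abs_nonneg _
  have hI0 : 0 ≤ ∫ v, pw v * KJ L v := integral_nonneg fun v => mul_nonneg (pw_pos v).le (KJ_nonneg hL v)
  have hF1 : 0 ≤ F := hF0.trans hF
  have hCJ : 0 ≤ CJ := hI0.trans hJ3
  have h1 : ‖∫ v, Tf f g (v + u) * (KJ L v : ℂ)‖ ≤ ∫ v, ((256 * C * ∫ y, |f y|) * ell u) * (pw v * KJ L v) := by
    refine norm_integral_le_of_norm_le ((pw_KJ_int hL).const_mul _) (Filter.Eventually.of_forall fun v => ?_)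
    rw [norm_mul, Complex.norm_real, Real.norm_of_nonneg (KJ_nonneg hL v)]
    calc ‖Tf f g (v + u)‖ * KJ L v ≤ ((256 * C * ∫ y, |f y|) * ell u * pw v) * KJ L v :=
          mul_le_mul_of_nonneg_right (Tfp_bd hf hs hb u v hu) (KJ_nonneg hL v)
      _ = _ := by ring
  rw [integral_const_mul] at h1
  refine h1.trans ?_
  calc (256 * C * ∫ y, |f y|) * ell u * ∫ v, pw v * KJ L v ≤ (256 * C * F) * ell u * CJ := by gcongr
    _ = _ := by ring

theorem ell_exp {Y v : ℝ} (hY : 1 ≤ Y) (hv : 0 ≤ v) : ell v ≤ 3 * (Y + 3) * Real.exp (Real.exp (-(3 * Y)) / 4 * v) := by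
  set η : ℝ := Real.exp (-(3 * Y)) with hη
  have hη0 : 0 < η := Real.exp_pos _
  have hη1 : η ≤ 1 := Real.exp_le_one_iff.2 (by linarith)
  have h1 : 1 + v ≤ (1 + η * v) * Real.exp (3 * Y) := by
    have e : η * Real.exp (3 * Y) = 1 := by rw [hη, ← Real.exp_add]; simp
    have h2 : 1 ≤ Real.exp (3 * Y) := Real.one_le_exp (by linarith)
    calc 1 + v ≤ Real.exp (3 * Y) + v := by linarith
      _ = Real.exp (3 * Y) + (η * Real.exp (3 * Y)) * v := by rw [e, one_mul]
      _ = _ := by ring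
  have h3 : Real.log (1 + v) ≤ η * v + 3 * Y := by
    have h4 := Real.log_le_log (by linarith) h1
    rw [Real.log_mul (by positivity) (Real.exp_pos _).ne', Real.log_exp] at h4
    have h5 := Real.log_le_sub_one_of_pos (show 0 < 1 + η * v by positivity)
    linarith
  have h6 : ell v ≤ 1 + 3 * Y + η * v := by
    unfold ell
    rw [abs_of_nonneg hv]
    linarith
  have h7 : η / 4 * v + 1 ≤ Real.exp (η / 4 * v) := Real.add_one_le_exp _
  have h8 : 0 ≤ η * v := by positivity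
  calc ell v ≤ 1 + 3 * Y + η * v := h6
    _ ≤ 3 * (Y + 3) * (η / 4 * v + 1) := by nlinarith
    _ ≤ _ := mul_le_mul_of_nonneg_left h7 (by linarith)

/-- **the recurrence** -/
theorem recStmt : RecStmt := by
  intro B hB k hk L hL f hf hs C₂ CJ F ε Y τ J hb hJ3 hY hτ hJ hε hF hpig
  have hL0 : 0 < L := by linarith
  have hC := M_nonneg (bd0 hb)
  have hF0 : 0 ≤ F := (integral_nonneg fun y => abs_nonneg (f y)).trans hF
  have hCJ : 0 ≤ CJ := (integral_nonneg fun v => mul_nonneg (pw_pos v).le (KJ_nonneg hL0 v)).trans hJ3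
  obtain ⟨b, hrep⟩ := R1 hB hk hL0 hf hs (bd0 hb)
  have hcard : 1 ≤ (ZM L).card := by
    unfold ZM
    exact Finset.card_pos.2 ⟨0, Finset.mem_insert_self _ _⟩
  set P : ℝ → ℂ := fun u => ∫ v, Tf f (Hh (4 * k : ℕ)) (v + u) * (KJ L v : ℂ) with hP
  have h := recur1 (ZM L) hcard b P hrep (M := 3 * (256 * C₂ * F * (Y + 3) * CJ)) (ε := ε) (Y := Y) (τ₀ := τ) J
    (by positivity) hε hτ hY hJ (by
      intro v hv
      refine (R2 hf hs hL0 hb hJ3 hF hv).trans ?_
      have h1 := mul_le_mul_of_nonneg_left (ell_exp hY hv) (show 0 ≤ 256 * C₂ * F * CJ by positivity)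
      refine h1.trans (le_of_eq ?_)
      ring) (by
      have e : 16 * (3 * (256 * C₂ * F * (Y + 3) * CJ)) * ((ZM L).card : ℝ) / ε =
          48 * (256 * C₂ * F * (Y + 3) * CJ) * (ZM L).card / ε := by ring
      rw [e]
      exact hpig)
  exact h

/-- **the theorem** -/
theorem quantl (h : Adm w Cw) : ∃ c : ℝ, 0 < c ∧ ∀ X : ℕ, ∃ N : ℕ, X ≤ N ∧
    c * √(N : ℝ) * w (1 - Real.log (Real.log (Real.log N)) ^ 3 / Real.log (Real.log N)) <
      |Pool.Agent.Helper63.EW.S lam w N| := quantl_of_rec h recStmt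

end Pool.Agent.Helper63.QL
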