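import Pool.Agent.Helper47.QL.K8
import Pool.Agent.Helper96.EQ.Tf

/-! # Project QL: averages and smoothing with the weight `pw` -/

set_option autoImplicit false

namespace Pool.Agent.Helper63.QL

open MeasureTheory Set Filter Topology
open Pool.Agent.Helper96.EQ (Tf)
open Pool.Agent.Helper99.MS (ell ell_nonneg)
open Pool.Agent.Helper95.QL (pw KJ)
open Pool.Agent.Helper47.QL (pw_cont one_le_pw pw_pos pw_add KJ_nonneg KJ_meas KJ_int KJ_tot pw_KJ_int)

theorem pw0 : pw 0 = 1 := by simp [pw]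

theorem M_nonneg {g : ℝ → ℂ} {M : ℝ} (hb : ∀ v : ℝ, ‖g v‖ ≤ M * pw v) : 0 ≤ M := by
  have h := (norm_nonneg _).trans (hb 0)
  rw [pw0, mul_one] at h
  exact h

/-- the growth bound at the origin -/
theorem bd0 {g : ℝ → ℂ} {M : ℝ} (hb : ∀ u v : ℝ, 0 ≤ u → ‖g (v + u)‖ ≤ M * ell u * pw v) (v : ℝ) :
    ‖g v‖ ≤ M * pw v := by
  have h := hb 0 v le_rfl
  have e : ell 0 = 1 := by simp [ell]
  rw [add_zero, e, mul_one] at h
  exact h

theorem pw_one {y : ℝ} (hy : |y| ≤ 1) : pw y ≤ 256 := by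
  unfold pw
  calc (1 + |y|) ^ 8 ≤ (1 + 1) ^ 8 := pow_le_pow_left₀ (by positivity) (by linarith) 8
    _ = 256 := by norm_num

theorem pw_mono {a b : ℝ} (h : |a| ≤ |b|) : pw a ≤ pw b := by
  unfold pw
  exact pow_le_pow_left₀ (by positivity) (by linarith) 8

theorem Tfp_pt {f : ℝ → ℝ} (hs : ∀ y, 1 < |y| → f y = 0) {g : ℝ → ℂ} {M : ℝ}
    (hb : ∀ v, ‖g v‖ ≤ M * pw v) (v y : ℝ) : ‖(f y : ℂ) * g (v + y)‖ ≤ |f y| * (M * (pw v * 256)) := by
  have hM := M_nonneg hb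
  rw [norm_mul, Complex.norm_real, Real.norm_eq_abs]
  by_cases hy : 1 < |y|
  · rw [hs y hy]
    simp
  · apply mul_le_mul_of_nonneg_left _ (abs_nonneg _)
    refine (hb _).trans (mul_le_mul_of_nonneg_left ?_ hM)
    exact (pw_add v y).trans (mul_le_mul_of_nonneg_left (pw_one (not_lt.1 hy)) (pw_pos v).le)

theorem Tfp_meas {f : ℝ → ℝ} (hf : Integrable f) {g : ℝ → ℂ} (hg : Continuous g) (v : ℝ) :
    AEStronglyMeasurable (fun y => (f y : ℂ) * g (v + y)) volume := by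
  apply AEStronglyMeasurable.mul
  · exact Complex.continuous_ofReal.comp_aestronglyMeasurable hf.1
  · exact (hg.comp (by fun_prop)).aestronglyMeasurable

theorem Tfp_int {f : ℝ → ℝ} (hf : Integrable f) (hs : ∀ y, 1 < |y| → f y = 0) {g : ℝ → ℂ} (hg : Continuous g) {M : ℝ}
    (hb : ∀ v, ‖g v‖ ≤ M * pw v) (v : ℝ) : Integrable (fun y => (f y : ℂ) * g (v + y)) :=
  Integrable.mono' (hf.abs.mul_const (M * (pw v * 256))) (Tfp_meas hf hg v) (Filter.Eventually.of_forall (Tfp_pt hs hb v))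

theorem Tfp_cont {f : ℝ → ℝ} (hf : Integrable f) (hs : ∀ y, 1 < |y| → f y = 0) {g : ℝ → ℂ} (hg : Continuous g) {C : ℝ}
    (hC : ∀ v, ‖g v‖ ≤ C * pw v) : Continuous (Tf f g) := by
  have hC0 := M_nonneg hC
  rw [continuous_iff_continuousAt]
  intro v₀
  unfold Tf
  apply continuousAt_of_dominated (bound := fun y => |f y| * (C * (pw (|v₀| + 1) * 256)))
  · exact Filter.Eventually.of_forall (Tfp_meas hf hg)
  · have : ∀ᶠ v in 𝓝 v₀, |v| < |v₀| + 1 := by
      apply ContinuousAt.eventually_lt continuous_abs.continuousAt continuousAt_const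
      simp
    filter_upwards [this] with v hv
    apply Filter.Eventually.of_forall
    intro y
    refine (Tfp_pt hs hC v y).trans ?_
    apply mul_le_mul_of_nonneg_left _ (abs_nonneg _)
    apply mul_le_mul_of_nonneg_left _ hC0
    apply mul_le_mul_of_nonneg_right _ (by norm_num)
    apply pw_mono
    rw [abs_of_nonneg (by positivity : 0 ≤ |v₀| + 1)]
    exact hv.le
  · exact hf.abs.mul_const _
  · apply Filter.Eventually.of_forall
    intro y
    exact continuousAt_const.mul (hg.comp (by fun_prop : Continuous (fun v : ℝ => v + y))).continuousAt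

theorem Tfp_bd {f : ℝ → ℝ} (hf : Integrable f) (hs : ∀ y, 1 < |y| → f y = 0) {g : ℝ → ℂ} {C : ℝ}
    (hC : ∀ u v : ℝ, 0 ≤ u → ‖g (v + u)‖ ≤ C * ell u * pw v) (u v : ℝ) (hu : 0 ≤ u) :
    ‖Tf f g (v + u)‖ ≤ (256 * C * ∫ y, |f y|) * ell u * pw v := by
  have hC0 := M_nonneg (bd0 hC)
  have hl := ell_nonneg u
  have hp := pw_pos v
  have hpt : ∀ y, ‖(f y : ℂ) * g (v + u + y)‖ ≤ |f y| * (C * ell u * (pw v * 256)) := by
    intro y
    rw [norm_mul, Complex.norm_real, Real.norm_eq_abs]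
    by_cases hy : 1 < |y|
    · rw [hs y hy]
      simp
    · apply mul_le_mul_of_nonneg_left _ (abs_nonneg _)
      rw [show v + u + y = (v + y) + u by ring]
      refine (hC u (v + y) hu).trans (mul_le_mul_of_nonneg_left ?_ (by positivity))
      exact (pw_add v y).trans (mul_le_mul_of_nonneg_left (pw_one (not_lt.1 hy)) hp.le)
  unfold Tf
  refine (norm_integral_le_of_norm_le (hf.abs.mul_const _) (Filter.Eventually.of_forall hpt)).trans ?_
  rw [integral_mul_const]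
  exact le_of_eq (by ring)

theorem re_int_p {g : ℝ → ℂ} (hg : Continuous g) {C u L : ℝ} (hC : ∀ v, ‖g (v + u)‖ ≤ C * pw v) (hL : 0 < L) :
    (∫ v, g (v + u) * (KJ L v : ℂ)).re = ∫ v, (g (v + u)).re * KJ L v ∧
      Integrable (fun v => (g (v + u)).re * KJ L v) := by
  have hi : Integrable (fun v => g (v + u) * (KJ L v : ℂ)) := by
    refine Integrable.mono' ((pw_KJ_int hL).const_mul C) ?_ (Filter.Eventually.of_forall fun v => ?_)
    · apply AEStronglyMeasurable.mul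
      · exact (hg.comp (by fun_prop)).aestronglyMeasurable
      · exact Complex.continuous_ofReal.comp_aestronglyMeasurable KJ_meas
    · rw [norm_mul, Complex.norm_real, Real.norm_of_nonneg (KJ_nonneg hL v)]
      calc ‖g (v + u)‖ * KJ L v ≤ C * pw v * KJ L v := mul_le_mul_of_nonneg_right (hC v) (KJ_nonneg hL v)
        _ = _ := by ring
  have e : ∀ v, (g (v + u) * (KJ L v : ℂ)).re = (g (v + u)).re * KJ L v := by
    intro v
    rw [Complex.re_mul_ofReal]
  constructor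
  · have h1 := integral_re hi
    simp only [RCLike.re_to_complex, e] at h1
    exact h1.symm
  · have h2 := hi.re
    simp only [RCLike.re_to_complex, e] at h2
    exact h2

theorem low_p {g : ℝ → ℂ} (hg : Continuous g) {C₂ : ℝ} (hC₂ : 0 ≤ C₂) (hb : ∀ v, ‖g v‖ ≤ C₂ * pw v)
    {H E E' θ L CJ : ℝ} (hH : 0 ≤ H) (hE : 0 ≤ E) (hE' : 0 ≤ E') (hθ₁ : θ ≤ 1/8) (hL : 1 ≤ L)
    (hJ1 : ∫ v in (Icc (-θ) θ)ᶜ, KJ L v ≤ CJ / (L * θ))
    (hJ2 : ∫ v in (Icc (-(1 / 8 : ℝ)) (1 / 8))ᶜ, pw v * KJ L v ≤ CJ / L ^ 15)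
    (h1 : ∀ v, |v| ≤ θ → H - E ≤ (g v).re) (h2 : ∀ v, |v| ≤ 1/8 → -E' ≤ (g v).re) :
    2 * Real.pi * (H - E) - (H + E') * (CJ / (L * θ)) - 2 * C₂ * (CJ / L ^ 15) ≤ (∫ v : ℝ, g v * (KJ L v : ℂ)).re := by
  have hL0 : 0 < L := by linarith
  obtain ⟨e, hi⟩ := re_int_p hg (u := 0) (C := C₂) (by intro v; rw [add_zero]; exact hb v) hL0
  simp only [add_zero] at e hi
  rw [e]
  have i1 := (KJ_int hL0).const_mul (H - E)
  have i2 := ((KJ_int hL0).indicator (measurableSet_Icc (a := -θ) (b := θ)).compl).const_mul (H + E')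
  have i3 := ((pw_KJ_int hL0).indicator (measurableSet_Icc (a := -(1 / 8 : ℝ)) (b := 1 / 8)).compl).const_mul (2 * C₂)
  have i12 : Integrable (fun v => (H - E) * KJ L v - (H + E') * ((Set.Icc (-θ) θ)ᶜ.indicator (KJ L) v)) := i1.sub i2
  have i123 : Integrable (fun v => (H - E) * KJ L v - (H + E') * ((Set.Icc (-θ) θ)ᶜ.indicator (KJ L) v) -
      2 * C₂ * ((Set.Icc (-(1 / 8 : ℝ)) (1 / 8))ᶜ.indicator (fun v => pw v * KJ L v) v)) := i12.sub i3
  have hlow : ∫ v, ((((H - E) * KJ L v) - (H + E') * ((Set.Icc (-θ) θ)ᶜ.indicator (KJ L) v)) -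
      2 * C₂ * ((Set.Icc (-(1 / 8 : ℝ)) (1 / 8))ᶜ.indicator (fun v => pw v * KJ L v) v)) ≤
      ∫ v, (g v).re * KJ L v := by
    apply integral_mono i123 hi
    intro v
    simp only
    have hK := KJ_nonneg hL0 v
    have hp := pw_pos v
    have hre := (abs_le.1 (Complex.abs_re_le_norm (g v))).1
    have hg0 := hb v
    by_cases hv1 : v ∈ Set.Icc (-(1 / 8 : ℝ)) (1 / 8)
    · rw [Set.indicator_of_notMem (show v ∉ (Set.Icc (-(1 / 8 : ℝ)) (1 / 8))ᶜ from fun h => h hv1)]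
      by_cases hv : v ∈ Set.Icc (-θ) θ
      · rw [Set.indicator_of_notMem (show v ∉ (Set.Icc (-θ) θ)ᶜ from fun h => h hv)]
        have h5 := mul_le_mul_of_nonneg_right (h1 v (abs_le.2 hv)) hK
        linarith
      · rw [Set.indicator_of_mem (show v ∈ (Set.Icc (-θ) θ)ᶜ from hv)]
        have h4 : -E - E' ≤ (g v).re := by linarith [h2 v (abs_le.2 hv1)]
        have h5 := mul_le_mul_of_nonneg_right h4 hK
        linarith
    · have hv : v ∉ Set.Icc (-θ) θ := fun h => hv1 ⟨by linarith [h.1], by linarith [h.2]⟩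
      rw [Set.indicator_of_mem (show v ∈ (Set.Icc (-(1 / 8 : ℝ)) (1 / 8))ᶜ from hv1),
        Set.indicator_of_mem (show v ∈ (Set.Icc (-θ) θ)ᶜ from hv)]
      have hCp : 0 ≤ C₂ * pw v := by positivity
      have h4 : -E - E' - 2 * C₂ * pw v ≤ (g v).re := by linarith
      have h5 := mul_le_mul_of_nonneg_right h4 hK
      linarith
  refine le_trans ?_ hlow
  rw [integral_sub i12 i3, integral_sub i1 i2, integral_const_mul,
    integral_const_mul, integral_const_mul, KJ_tot hL0, integral_indicator (measurableSet_Icc).compl,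
    integral_indicator (measurableSet_Icc).compl]
  have t1 := mul_le_mul_of_nonneg_left hJ1 (show 0 ≤ H + E' by linarith)
  have t2 := mul_le_mul_of_nonneg_left hJ2 (show 0 ≤ 2 * C₂ by linarith)
  linarith

theorem far_p {g : ℝ → ℂ} (hg : Continuous g) {C₂ : ℝ} (hC₂ : 0 ≤ C₂) {u : ℝ} (hb : ∀ v, ‖g (v + u)‖ ≤ C₂ * pw v)
    {c L CJ : ℝ} (hc : 0 ≤ c) (hL : 1 ≤ L)
    (hJ2 : ∫ v in (Icc (-(1 / 8 : ℝ)) (1 / 8))ᶜ, pw v * KJ L v ≤ CJ / L ^ 15)
    (h1 : ∀ v, |v| ≤ 1/8 → (g (v + u)).re ≤ c) :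
    (∫ v : ℝ, g (v + u) * (KJ L v : ℂ)).re ≤ 2 * Real.pi * c + C₂ * (CJ / L ^ 15) := by
  have hL0 : 0 < L := by linarith
  obtain ⟨e, hi⟩ := re_int_p hg hb hL0
  rw [e]
  have i1 := (KJ_int hL0).const_mul c
  have i3 := ((pw_KJ_int hL0).indicator (measurableSet_Icc (a := -(1 / 8 : ℝ)) (b := 1 / 8)).compl).const_mul C₂
  have i13 : Integrable (fun v => c * KJ L v +
      C₂ * ((Set.Icc (-(1 / 8 : ℝ)) (1 / 8))ᶜ.indicator (fun v => pw v * KJ L v) v)) := i1.add i3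
  have hup : ∫ v, (g (v + u)).re * KJ L v ≤ ∫ v, (c * KJ L v +
      C₂ * ((Set.Icc (-(1 / 8 : ℝ)) (1 / 8))ᶜ.indicator (fun v => pw v * KJ L v) v)) := by
    apply integral_mono hi i13
    intro v
    simp only
    have hK := KJ_nonneg hL0 v
    have hre := (abs_le.1 (Complex.abs_re_le_norm (g (v + u)))).2
    by_cases hv : v ∈ Set.Icc (-(1 / 8 : ℝ)) (1 / 8)
    · rw [Set.indicator_of_notMem (show v ∉ (Set.Icc (-(1 / 8 : ℝ)) (1 / 8))ᶜ from fun h => h hv)]
      have h3 := mul_le_mul_of_nonneg_right (h1 v (abs_le.2 hv)) hK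
      linarith
    · rw [Set.indicator_of_mem (show v ∈ (Set.Icc (-(1 / 8 : ℝ)) (1 / 8))ᶜ from hv)]
      have h3 := hb v
      have h5 : (g (v + u)).re ≤ c + C₂ * pw v := by linarith
      have h6 := mul_le_mul_of_nonneg_right h5 hK
      calc _ ≤ _ := h6
        _ = _ := by ring
  refine hup.trans ?_
  rw [integral_add i1 i3, integral_const_mul, integral_const_mul, KJ_tot hL0,
    integral_indicator (measurableSet_Icc).compl]
  have t3 := mul_le_mul_of_nonneg_left hJ2 hC₂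
  linarith

end Pool.Agent.Helper63.QL
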