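import Pool.Agent.Helper56.QL.Cp
import Pool.Agent.Helper19.EQ.Fin3
import Pool.Agent.Helper63.QL.Gen4

/-! # Project QL: near and far bounds of the two-sided function -/

set_option autoImplicit false

namespace Pool.Agent.Helper63.QL

open MeasureTheory Set Filter Topology
open Pool.Agent.Helper18.ES (lam bb)
open Pool.Agent.Helper95.EW (Ac Dl Nr)
open Pool.Agent.Helper71.MR (gt gt_int_pos)
open Pool.Agent.Helper63.EW (ha ma AA S gt_int_ge)
open Pool.Agent.Helper63.EQ (nu Zn Adm)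
open Pool.Agent.Helper19.QD (ps Dr Wd ps_int ps_supp ps_sh_supp)
open Pool.Agent.Helper96.EQ (Tf)
open Pool.Agent.Helper99.MS (ell ff GB EE EE_pos EE_le_one al ZL ell_le_Y ell_nonneg)
open Pool.Agent.Helper95.QL (pw KJ g1l Hh ZM)
open Pool.Agent.Helper47.QL (pw_cont one_le_pw pw_pos pw_add)
open Pool.Agent.Helper56.QL (g1l_meas g1l_near Drl_low)

variable {w : ℝ → ℝ} {Cw B : ℝ}

/-- the real part of the average -/
theorem Tf_re (h : Adm w Cw) {g : ℝ → ℂ} (hg : Continuous g) {M : ℝ} (hb : ∀ v, ‖g v‖ ≤ M * pw v)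
    {r : ℝ → ℝ} (hr : Measurable r) {δ V₀ V q : ℝ} (hδ0 : 0 < δ) (hδ : δ ≤ 1 / 16) (hV₀ : |V₀| ≤ 1 / 8)
    (hre : ∀ y : ℝ, -(1 / 2) < y - V₀ → y - V₀ < δ → |(g (V + y)).re - r (V + y)| ≤ q) :
    |(Tf (fun y => ps w δ (y - V₀)) g V).re - Dr w δ r (V + V₀)| ≤ q * ∫ y : ℝ, |ps w δ y| := by
  obtain ⟨hpi, -⟩ := ps_int h hδ0 (by linarith : δ ≤ 1 / 4)
  have hpi' : Integrable (fun y => ps w δ (y - V₀)) := hpi.comp_sub_right V₀
  have i0 := Tfp_int hpi' (ps_sh_supp h hδ0.le hδ hV₀) hg hb V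
  have i1 : Integrable (fun y => ps w δ (y - V₀) * (g (V + y)).re) := by
    refine i0.re.congr (Filter.Eventually.of_forall fun y => ?_)
    exact Complex.re_ofReal_mul _ _
  have hbb : ∀ y, |ps w δ (y - V₀) * ((g (V + y)).re - r (V + y))| ≤ |ps w δ (y - V₀)| * q := by
    intro y
    rw [abs_mul]
    by_cases hy : y - V₀ ≤ -(1 / 2) ∨ δ ≤ y - V₀
    · rw [ps_supp h hδ0.le hy]
      simp
    · push Not at hy
      exact mul_le_mul_of_nonneg_left (hre y hy.1 hy.2) (abs_nonneg _)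
  have i2 : Integrable (fun y => ps w δ (y - V₀) * ((g (V + y)).re - r (V + y))) := by
    refine Integrable.mono' (hpi'.abs.mul_const q) ?_ (Filter.Eventually.of_forall hbb)
    apply AEStronglyMeasurable.mul hpi'.1
    apply AEStronglyMeasurable.sub
    · exact (Complex.continuous_re.comp (hg.comp (by fun_prop : Continuous fun y : ℝ => V + y))).aestronglyMeasurable
    · exact (hr.comp (measurable_const_add V)).aestronglyMeasurable
  have e1 : (Tf (fun y => ps w δ (y - V₀)) g V).re = ∫ y, ps w δ (y - V₀) * (g (V + y)).re := by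
    unfold Tf
    refine Eq.trans (integral_re i0).symm ?_
    congr 1
    ext y
    exact Complex.re_ofReal_mul _ _
  have e2 : Dr w δ r (V + V₀) = ∫ y, ps w δ (y - V₀) * r (V + y) := by
    unfold Dr
    rw [← integral_sub_right_eq_self (fun y => ps w δ y * r (V + V₀ + y)) V₀]
    congr 1
    ext y
    rw [show V + V₀ + (y - V₀) = V + y by ring]
  have e3 : ∫ y, ps w δ (y - V₀) * r (V + y) =
      (∫ y, ps w δ (y - V₀) * (g (V + y)).re) - ∫ y, ps w δ (y - V₀) * ((g (V + y)).re - r (V + y)) := by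
    rw [← integral_sub i1 i2]
    congr 1
    ext y
    ring
  rw [e1, e2, e3, sub_sub_cancel]
  rw [← Real.norm_eq_abs]
  refine (norm_integral_le_of_norm_le (hpi'.abs.mul_const q) (Filter.Eventually.of_forall hbb)).trans ?_
  rw [integral_mul_const, integral_sub_right_eq_self (fun y => |ps w δ y|) V₀]
  exact le_of_eq (by ring)

/-- the average of `g1l` near the origin -/
theorem Dr_near (h : Adm w Cw) (hB : GB (ff lam) B) {m δ V : ℝ} (hm : 64 ≤ m) (hδ0 : 0 < δ) (hδ : δ ≤ 1 / 16)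
    (h1 : -(1 / 2) ≤ V) (h2 : V ≤ 1 / 8) :
    |Dr w δ (g1l m) V| ≤ (4 + 16 * B) * ∫ y : ℝ, |ps w δ y| := by
  have hB0 := hB.nonneg
  obtain ⟨hpi, -⟩ := ps_int h hδ0 (by linarith : δ ≤ 1 / 4)
  unfold Dr
  rw [← Real.norm_eq_abs, ← integral_const_mul]
  refine norm_integral_le_of_norm_le (hpi.abs.const_mul _) (Filter.Eventually.of_forall fun y => ?_)
  rw [Real.norm_eq_abs, abs_mul, mul_comm]
  by_cases hy : y ≤ -(1 / 2) ∨ δ ≤ y
  · rw [ps_supp h hδ0.le hy]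
    simp
  · push Not at hy
    apply mul_le_mul_of_nonneg_right _ (abs_nonneg _)
    have h3 := g1l_near hB hm (v := V + y) (by linarith [hy.1]) (by linarith [hy.2])
    have h4 : Real.exp (-((V + y) / 2)) * EE m (V + y) ≤ 2 := by
      have h5 : Real.exp (-((V + y) / 2)) ≤ 2 := by
        have h6 : Real.exp (-((V + y) / 2)) ≤ Real.exp (1/2) := Real.exp_le_exp.2 (by linarith [hy.1])
        have h7 : Real.exp (1/2) ≤ 2 := by
          have h8 : Real.exp (1/2) ^ 2 = Real.exp 1 := by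
            rw [← Real.exp_nat_mul]; norm_num
          have he := Real.exp_one_lt_d9
          nlinarith [Real.exp_pos (1/2 : ℝ)]
        linarith
      calc Real.exp (-((V + y) / 2)) * EE m (V + y) ≤ 2 * 1 :=
            mul_le_mul h5 (EE_le_one (by linarith) _) (EE_pos _ _).le (by norm_num)
        _ = 2 := by norm_num
    have h5 : 0 ≤ Real.exp (-((V + y) / 2)) * EE m (V + y) := mul_nonneg (Real.exp_pos _).le (EE_pos _ _).le
    have h6 : Real.exp (-(m / 32)) ≤ 1 := Real.exp_le_one_iff.2 (by linarith)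
    have h7 : Real.exp (-((m - 4) / 32)) ≤ 1 := Real.exp_le_one_iff.2 (by linarith)
    have h8 : 16 * B * Real.exp (-((m - 4) / 32)) ≤ 16 * B := mul_le_of_le_one_right (by positivity) h7
    have h9 := abs_le.1 h3
    rw [abs_le]
    constructor
    · linarith [h9.1]
    · linarith [h9.2]

/-- lower bound at the origin -/
theorem near_low (h : Adm w Cw) (hB : GB (ff lam) B) {m δ L H M q CJ : ℝ} (hm1 : 1000 ≤ m)
    (hδ : δ = 1 / √m) (hL : 1 ≤ L) (hq : 0 ≤ q) (hgc : Continuous (Hh m))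
    (hb : ∀ u v : ℝ, 0 ≤ u → ‖Hh m (v + u)‖ ≤ M * ell u * pw v)
    (hre : ∀ v : ℝ, |v| ≤ 3 / 4 ∨ √m ≤ v → |(Hh m v).re - g1l m v| ≤ q)
    (hJ1 : ∫ v in (Icc (-(δ / 2)) (δ / 2))ᶜ, KJ L v ≤ CJ / (L * (δ / 2)))
    (hJ2 : ∫ v in (Icc (-(1 / 8 : ℝ)) (1 / 8))ᶜ, pw v * KJ L v ≤ CJ / L ^ 15)
    (hH0 : 0 ≤ H) (hH : H ≤ 1 / 64 * nu w (6 / √m) * ∫ u : ℝ, gt δ u) :
    2 * Real.pi * (H - (2 * Real.exp (-(m / 32)) + 16 * B * Real.exp (-((m - 4) / 32)) + q) * ∫ y : ℝ, |ps w δ y|) -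
      (H + (4 + 16 * B + q) * ∫ y : ℝ, |ps w δ y|) * (CJ / (L * (δ / 2))) -
      2 * (256 * M * ∫ y : ℝ, |ps w δ y|) * (CJ / L ^ 15) ≤
    (∫ v : ℝ, Tf (fun y => ps w δ (y - -(3 * δ / 2))) (Hh m) (v + 0) * (KJ L v : ℂ)).re := by
  have hB0 := hB.nonneg
  have hb0 := bd0 hb
  have hM := M_nonneg hb0
  have hs : 31 ≤ √m := by
    rw [show (31 : ℝ) = √(31 ^ 2) by rw [Real.sqrt_sq (by norm_num)]]
    apply Real.sqrt_le_sqrt
    norm_num
    linarith
  have hs0 : 0 < √m := by linarith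
  have hδ0 : 0 < δ := by rw [hδ]; positivity
  have hδ1 : δ ≤ 1 / 31 := by
    rw [hδ]
    exact one_div_le_one_div_of_le (by norm_num) hs
  have hδ16 : δ ≤ 1 / 16 := by linarith
  have hV₀ : |(-(3 * δ / 2))| ≤ 1 / 8 := by
    rw [abs_neg, abs_of_nonneg (by linarith)]
    linarith
  obtain ⟨hpi, -⟩ := ps_int h hδ0 (by linarith : δ ≤ 1 / 4)
  have hpi' : Integrable (fun y => ps w δ (y - -(3 * δ / 2))) := hpi.comp_sub_right _
  have hsup := ps_sh_supp h hδ0.le hδ16 hV₀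
  set Q : ℝ := ∫ y : ℝ, |ps w δ y| with hQ
  have hQ0 : 0 ≤ Q := integral_nonneg fun y => abs_nonneg _
  have hQ' : ∫ y, |ps w δ (y - -(3 * δ / 2))| = Q := integral_sub_right_eq_self (fun y => |ps w δ y|) _
  have hTc := Tfp_cont hpi' hsup hgc hb0
  have hTb : ∀ v, ‖Tf (fun y => ps w δ (y - -(3 * δ / 2))) (Hh m) v‖ ≤ (256 * M * Q) * pw v := by
    apply bd0
    intro u v hu
    have := Tfp_bd hpi' hsup hb u v hu
    rw [hQ'] at this
    exact this
  have hreT : ∀ V, -(1 / 8) ≤ V → V ≤ 1 / 8 → |(Tf (fun y => ps w δ (y - -(3 * δ / 2))) (Hh m) V).re -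
      Dr w δ (g1l m) (V + -(3 * δ / 2))| ≤ q * Q := by
    intro V hV hV'
    refine Tf_re h hgc hb0 (g1l_meas m) hδ0 hδ16 hV₀ (fun y hy1 hy2 => hre _ (Or.inl ?_))
    rw [abs_le]
    constructor
    · linarith
    · linarith
  have hDl : ∀ V, -(2 * δ) ≤ V → V ≤ -δ →
      H - (2 * Real.exp (-(m / 32)) + 16 * B * Real.exp (-((m - 4) / 32))) * Q ≤ Dr w δ (g1l m) V := by
    intro V h1 h2
    have h3 := Drl_low h hB hm1 (V := V)
      (by rw [show 2 / √m = 2 * (1 / √m) by ring, ← hδ]; exact h1) (by rw [← hδ]; exact h2)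
    rw [← hδ] at h3
    linarith
  have e1 := Real.exp_pos (-(m / 32))
  have e2 := Real.exp_pos (-((m - 4) / 32))
  simp only [add_zero]
  refine low_p hTc (C₂ := 256 * M * Q) (by positivity) hTb (H := H)
    (E := (2 * Real.exp (-(m / 32)) + 16 * B * Real.exp (-((m - 4) / 32)) + q) * Q)
    (E' := (4 + 16 * B + q) * Q) (θ := δ / 2) (L := L) (CJ := CJ) hH0 (by positivity) (by positivity)
    (by linarith) hL hJ1 hJ2
    (by
      intro v hv
      have hv1 := abs_le.1 hv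
      have h1 := (abs_le.1 (hreT v (by linarith [hv1.1]) (by linarith [hv1.2]))).1
      have h2 := hDl (v + -(3 * δ / 2)) (by linarith [hv1.1]) (by linarith [hv1.2])
      linarith)
    (by
      intro v hv
      have hv1 := abs_le.1 hv
      have h1 := (abs_le.1 (hreT v (by linarith [hv1.1]) (by linarith [hv1.2]))).1
      have h2 := (abs_le.1 (Dr_near h hB (by linarith : 64 ≤ m) hδ0 hδ16 (V := v + -(3 * δ / 2))
        (by linarith [hv1.1]) (by linarith [hv1.2]))).1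
      linarith)

/-- upper bound at a far point -/
theorem far_up (h : Adm w Cw) {m δ L M q CJ : ℝ} (hm1 : 1000 ≤ m) (hδ : δ = 1 / √m) (hL : 1 ≤ L) (hq : 0 ≤ q)
    (hgc : Continuous (Hh m))
    (hb : ∀ u v : ℝ, 0 ≤ u → ‖Hh m (v + u)‖ ≤ M * ell u * pw v)
    (hre : ∀ v : ℝ, |v| ≤ 3 / 4 ∨ √m ≤ v → |(Hh m v).re - g1l m v| ≤ q)
    (hJ2 : ∫ v in (Icc (-(1 / 8 : ℝ)) (1 / 8))ᶜ, pw v * KJ L v ≤ CJ / L ^ 15)
    {u U : ℝ} (hu : √m + 1 ≤ u) (hU0 : 0 ≤ U)
    (hU : ∀ V : ℝ, |V - u| ≤ 1 / 8 → |Dr w δ (g1l m) (V + -(3 * δ / 2))| ≤ U) :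
    (∫ v : ℝ, Tf (fun y => ps w δ (y - -(3 * δ / 2))) (Hh m) (v + u) * (KJ L v : ℂ)).re ≤
      2 * Real.pi * (U + q * ∫ y : ℝ, |ps w δ y|) +
      (256 * M * ∫ y : ℝ, |ps w δ y|) * ell u * (CJ / L ^ 15) := by
  have hb0 := bd0 hb
  have hM := M_nonneg hb0
  have hs : (31 : ℝ) ≤ √m := by
    rw [show (31 : ℝ) = √(31 ^ 2) by rw [Real.sqrt_sq (by norm_num)]]
    exact Real.sqrt_le_sqrt (by linarith)
  have hδ0 : 0 < δ := by rw [hδ]; positivity
  have hδ1 : δ ≤ 1 / 31 := by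
    rw [hδ]
    exact one_div_le_one_div_of_le (by norm_num) hs
  have hδ16 : δ ≤ 1 / 16 := by linarith
  have hV₀ : |(-(3 * δ / 2))| ≤ 1 / 8 := by
    rw [abs_neg, abs_of_nonneg (by linarith)]
    linarith
  obtain ⟨hpi, -⟩ := ps_int h hδ0 (by linarith : δ ≤ 1 / 4)
  have hpi' : Integrable (fun y => ps w δ (y - -(3 * δ / 2))) := hpi.comp_sub_right _
  have hsup := ps_sh_supp h hδ0.le hδ16 hV₀
  set Q : ℝ := ∫ y : ℝ, |ps w δ y| with hQ
  have hQ0 : 0 ≤ Q := integral_nonneg fun y => abs_nonneg _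
  have hQ' : ∫ y, |ps w δ (y - -(3 * δ / 2))| = Q := integral_sub_right_eq_self (fun y => |ps w δ y|) _
  have hTc := Tfp_cont hpi' hsup hgc hb0
  have hell := ell_nonneg u
  have hu0 : 0 ≤ u := by linarith
  have hTb : ∀ v, ‖Tf (fun y => ps w δ (y - -(3 * δ / 2))) (Hh m) (v + u)‖ ≤ (256 * M * Q) * ell u * pw v := by
    intro v
    have := Tfp_bd hpi' hsup hb u v hu0
    rw [hQ'] at this
    exact this
  refine far_p hTc (C₂ := (256 * M * Q) * ell u) (by positivity) hTb (c := U + q * Q) (by positivity) hL hJ2 ?_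
  intro v hv
  have hv' := abs_le.1 hv
  have h1 := Tf_re h hgc hb0 (g1l_meas m) hδ0 hδ16 hV₀ (V := v + u) (q := q) (fun y hy1 hy2 => hre _ (Or.inr (by
    linarith [hv'.1])))
  have h2 := (abs_le.1 h1).2
  have h3 := (abs_le.1 (hU (v + u) (by rw [add_sub_cancel_right]; exact hv))).2
  linarith

end Pool.Agent.Helper63.QL
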