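import Mathlib

/-! # Project QL: the value at the origin of an exponential polynomial (Takenaka - Malmquist) -/

set_option autoImplicit false

namespace Pool.Agent.Helper63.QL

open MeasureTheory Set Filter Topology Finset

/-- the quadratic form of the norm in `L²(e^(-ηu))` -/
noncomputable def QF (η : ℝ) (G : Finset ℝ) (b : ℝ → ℂ) : ℂ :=
  ∑ j ∈ G, ∑ k ∈ G, b j * (starRingEnd ℂ) (b k) / ((η : ℂ) - Complex.I * ((j : ℂ) - k))

theorem den_ne {η : ℝ} (hη : 0 < η) (t : ℝ) : (η : ℂ) - Complex.I * (t : ℂ) ≠ 0 := by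
  intro h
  have := congrArg Complex.re h
  simp at this
  linarith

theorem den_ne' {η : ℝ} (hη : 0 < η) (t : ℝ) : (η : ℂ) + Complex.I * (t : ℂ) ≠ 0 := by
  intro h
  have := congrArg Complex.re h
  simp at this
  linarith

/-- the identity for one term -/
theorem term_id {η : ℝ} (hη : 0 < η) (g j k : ℝ) :
    (η : ℂ) / ((η : ℂ) - Complex.I * ((j : ℂ) - k)) =
      ((η : ℂ) / ((η : ℂ) - Complex.I * ((j : ℂ) - g))) * ((η : ℂ) / ((η : ℂ) + Complex.I * ((k : ℂ) - g))) +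
      (η : ℂ) * (((-Complex.I * ((j : ℂ) - g)) / ((η : ℂ) - Complex.I * ((j : ℂ) - g))) *
        ((Complex.I * ((k : ℂ) - g)) / ((η : ℂ) + Complex.I * ((k : ℂ) - g)))) / ((η : ℂ) - Complex.I * ((j : ℂ) - k)) := by
  have h1 : (η : ℂ) - Complex.I * ((j : ℂ) - k) ≠ 0 := by
    have := den_ne hη (j - k); push_cast at this; exact this
  have h2 : (η : ℂ) - Complex.I * ((j : ℂ) - g) ≠ 0 := by
    have := den_ne hη (j - g); push_cast at this; exact this
  have h3 : (η : ℂ) + Complex.I * ((k : ℂ) - g) ≠ 0 := by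
    have := den_ne' hη (k - g); push_cast at this; exact this
  field_simp
  ring_nf

/-- the first coefficient and the reduced coefficients -/
noncomputable def c1 (η : ℝ) (G : Finset ℝ) (b : ℝ → ℂ) (g : ℝ) : ℂ :=
  ∑ j ∈ G, b j * ((η : ℂ) / ((η : ℂ) - Complex.I * ((j : ℂ) - g)))

noncomputable def b1 (η : ℝ) (b : ℝ → ℂ) (g : ℝ) (j : ℝ) : ℂ :=
  b j * ((-Complex.I * ((j : ℂ) - g)) / ((η : ℂ) - Complex.I * ((j : ℂ) - g)))

theorem b1_self (η : ℝ) (b : ℝ → ℂ) (g : ℝ) : b1 η b g g = 0 := by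
  unfold b1
  simp

theorem conj_c1 (η : ℝ) (G : Finset ℝ) (b : ℝ → ℂ) (g : ℝ) :
    (starRingEnd ℂ) (c1 η G b g) = ∑ k ∈ G, (starRingEnd ℂ) (b k) * ((η : ℂ) / ((η : ℂ) + Complex.I * ((k : ℂ) - g))) := by
  unfold c1
  rw [map_sum]
  apply Finset.sum_congr rfl
  intro k _
  simp [map_mul, map_div₀, Complex.conj_I]

theorem conj_b1 (η : ℝ) (b : ℝ → ℂ) (g k : ℝ) :
    (starRingEnd ℂ) (b1 η b g k) = (starRingEnd ℂ) (b k) * ((Complex.I * ((k : ℂ) - g)) / ((η : ℂ) + Complex.I * ((k : ℂ) - g))) := by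
  unfold b1
  simp [map_mul, map_div₀, Complex.conj_I]

/-- the identity -/
theorem QF_id {η : ℝ} (hη : 0 < η) (G : Finset ℝ) (b : ℝ → ℂ) (g : ℝ) :
    (η : ℂ) * QF η G b = c1 η G b g * (starRingEnd ℂ) (c1 η G b g) + (η : ℂ) * QF η G (b1 η b g) := by
  rw [conj_c1]
  unfold QF c1
  rw [Finset.sum_mul_sum, Finset.mul_sum, Finset.mul_sum, ← Finset.sum_add_distrib]
  apply Finset.sum_congr rfl
  intro j _
  rw [Finset.mul_sum, Finset.mul_sum, ← Finset.sum_add_distrib]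
  apply Finset.sum_congr rfl
  intro k _
  have h := term_id hη g j k
  rw [conj_b1]
  unfold b1
  calc (η : ℂ) * (b j * (starRingEnd ℂ) (b k) / ((η : ℂ) - Complex.I * ((j : ℂ) - k)))
      = b j * (starRingEnd ℂ) (b k) * ((η : ℂ) / ((η : ℂ) - Complex.I * ((j : ℂ) - k))) := by ring
    _ = _ := by rw [h]; ring

theorem sum_id {η : ℝ} (hη : 0 < η) (G : Finset ℝ) (b : ℝ → ℂ) (g : ℝ) :
    ∑ j ∈ G, b j = c1 η G b g + ∑ j ∈ G, b1 η b g j := by
  unfold c1
  rw [← Finset.sum_add_distrib]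
  apply Finset.sum_congr rfl
  intro j _
  have h2 : (η : ℂ) - Complex.I * ((j : ℂ) - g) ≠ 0 := by
    have := den_ne hη (j - g); push_cast at this; exact this
  unfold b1
  field_simp
  ring

theorem QF_insert {η : ℝ} {G : Finset ℝ} {g : ℝ} (hg : g ∉ G) {b : ℝ → ℂ} (hb : b g = 0) :
    QF η (insert g G) b = QF η G b := by
  unfold QF
  rw [Finset.sum_insert hg]
  have h1 : ∑ k ∈ insert g G, b g * (starRingEnd ℂ) (b k) / ((η : ℂ) - Complex.I * ((g : ℂ) - k)) = 0 := by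
    apply Finset.sum_eq_zero
    intro k _
    rw [hb]
    simp
  rw [h1, zero_add]
  apply Finset.sum_congr rfl
  intro j _
  rw [Finset.sum_insert hg, hb]
  simp

/-- the elementary inequality -/
theorem cs_ineq {x y X : ℝ} {n : ℕ} (hX : 0 ≤ X) (h : y ^ 2 ≤ n * X) :
    (x + y) ^ 2 ≤ (n + 1) * (x ^ 2 + X) := by
  have hn : (0:ℝ) ≤ n := Nat.cast_nonneg n
  have h1 : (2 * x * y) ^ 2 ≤ (n * x ^ 2 + X) ^ 2 := by
    have h2 := mul_le_mul_of_nonneg_left h (sq_nonneg x)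
    nlinarith [sq_nonneg (n * x ^ 2 - X)]
  have h3 : 2 * x * y ≤ n * x ^ 2 + X := by
    apply le_of_sq_le_sq h1
    positivity
  nlinarith

theorem QF_bound {η : ℝ} (hη : 0 < η) (G : Finset ℝ) : ∀ b : ℝ → ℂ,
    0 ≤ η * (QF η G b).re ∧ ‖∑ j ∈ G, b j‖ ^ 2 ≤ G.card * (η * (QF η G b).re) := by
  induction G using Finset.induction_on with
  | empty =>
    intro b
    simp [QF]
  | insert g G hg ih =>
    intro b
    obtain ⟨i1, i2⟩ := ih (b1 η b g)
    have h1 := congrArg Complex.re (QF_id hη (insert g G) b g)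
    rw [Complex.add_re, Complex.mul_conj, Complex.re_ofReal_mul, Complex.re_ofReal_mul, Complex.ofReal_re,
      Complex.normSq_eq_norm_sq, QF_insert hg (b1_self η b g)] at h1
    have h2 := sum_id hη (insert g G) b g
    rw [Finset.sum_insert hg (f := b1 η b g), b1_self, zero_add] at h2
    rw [h1]
    refine ⟨by positivity, ?_⟩
    rw [h2, Finset.card_insert_of_notMem hg]
    push_cast
    refine le_trans ?_ (cs_ineq i1 i2)
    exact pow_le_pow_left₀ (norm_nonneg _) (norm_add_le _ _) 2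

/-- the integral of one term -/
theorem int_term {η : ℝ} (hη : 0 < η) (t : ℝ) :
    IntegrableOn (fun u : ℝ => Complex.exp ((-(η : ℂ) + Complex.I * t) * u)) (Ioi 0) ∧
      ∫ u in Ioi (0:ℝ), Complex.exp ((-(η : ℂ) + Complex.I * t) * u) = 1 / ((η : ℂ) - Complex.I * t) := by
  have hre : (-(η : ℂ) + Complex.I * t).re < 0 := by simp [hη]
  refine ⟨integrableOn_exp_mul_complex_Ioi hre 0, ?_⟩
  rw [integral_exp_mul_complex_Ioi hre 0]
  have h := den_ne hη t
  have h' : -(η : ℂ) + Complex.I * t ≠ 0 := by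
    intro h0
    apply h
    linear_combination -h0
  simp only [Complex.ofReal_zero, mul_zero, Complex.exp_zero]
  rw [div_eq_div_iff h' h]
  ring

theorem QF_int {η : ℝ} (hη : 0 < η) (G : Finset ℝ) (b : ℝ → ℂ) :
    IntegrableOn (fun u : ℝ => ‖∑ j ∈ G, b j * Complex.exp (j * u * Complex.I)‖ ^ 2 * Real.exp (-(η * u))) (Ioi 0) ∧
    ∫ u in Ioi (0:ℝ), ‖∑ j ∈ G, b j * Complex.exp (j * u * Complex.I)‖ ^ 2 * Real.exp (-(η * u)) = (QF η G b).re := by
  have hpt : ∀ u : ℝ, ((‖∑ j ∈ G, b j * Complex.exp (j * u * Complex.I)‖ ^ 2 * Real.exp (-(η * u)) : ℝ) : ℂ) =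
      ∑ j ∈ G, ∑ k ∈ G, (b j * (starRingEnd ℂ) (b k)) * Complex.exp ((-(η : ℂ) + Complex.I * ((j - k : ℝ) : ℂ)) * u) := by
    intro u
    push_cast
    rw [← Complex.mul_conj', map_sum, Finset.sum_mul_sum, Finset.sum_mul]
    apply Finset.sum_congr rfl
    intro j _
    rw [Finset.sum_mul]
    apply Finset.sum_congr rfl
    intro k _
    rw [map_mul, ← Complex.exp_conj]
    simp only [map_mul, Complex.conj_ofReal, Complex.conj_I]
    have e : Complex.exp ((-(η : ℂ) + Complex.I * ((j : ℂ) - k)) * u) =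
        Complex.exp (j * u * Complex.I) * Complex.exp (k * u * -Complex.I) * Complex.exp (-(η * u)) := by
      rw [← Complex.exp_add, ← Complex.exp_add]
      congr 1
      ring
    rw [e]
    ring
  have hi : ∀ j k : ℝ, IntegrableOn (fun u : ℝ => (b j * (starRingEnd ℂ) (b k)) *
      Complex.exp ((-(η : ℂ) + Complex.I * ((j - k : ℝ) : ℂ)) * u)) (Ioi 0) := fun j k =>
    (int_term hη (j - k)).1.const_mul _
  have hI : IntegrableOn (fun u : ℝ => ∑ j ∈ G, ∑ k ∈ G, (b j * (starRingEnd ℂ) (b k)) *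
      Complex.exp ((-(η : ℂ) + Complex.I * ((j - k : ℝ) : ℂ)) * u)) (Ioi 0) :=
    integrable_finsetSum _ fun j _ => integrable_finsetSum _ fun k _ => hi j k
  have hC : IntegrableOn (fun u : ℝ => ((‖∑ j ∈ G, b j * Complex.exp (j * u * Complex.I)‖ ^ 2 *
      Real.exp (-(η * u)) : ℝ) : ℂ)) (Ioi 0) := by
    refine hI.congr (Filter.Eventually.of_forall fun u => ?_)
    exact (hpt u).symm
  refine ⟨?_, ?_⟩
  · have := hC.re
    refine this.congr (Filter.Eventually.of_forall fun u => ?_)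
    exact Complex.ofReal_re _
  · have h1 : ((∫ u in Ioi (0:ℝ), ‖∑ j ∈ G, b j * Complex.exp (j * u * Complex.I)‖ ^ 2 * Real.exp (-(η * u)) : ℝ) : ℂ) =
        QF η G b := by
      rw [← integral_complex_ofReal]
      simp_rw [hpt]
      rw [integral_finsetSum _ fun j _ => integrable_finsetSum _ fun k _ => hi j k]
      unfold QF
      apply Finset.sum_congr rfl
      intro j _
      rw [integral_finsetSum _ fun k _ => hi j k]
      apply Finset.sum_congr rfl
      intro k _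
      rw [integral_const_mul, (int_term hη (j - k)).2]
      push_cast
      ring
    rw [← h1, Complex.ofReal_re]

/-- **the value at the origin** -/
theorem lemA {η : ℝ} (hη : 0 < η) (G : Finset ℝ) (b : ℝ → ℂ) :
    ‖∑ j ∈ G, b j‖ ^ 2 ≤ G.card * (η *
      ∫ u in Ioi (0:ℝ), ‖∑ j ∈ G, b j * Complex.exp (j * u * Complex.I)‖ ^ 2 * Real.exp (-(η * u))) := by
  rw [(QF_int hη G b).2]
  exact (QF_bound hη G b).2

end Pool.Agent.Helper63.QL
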