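import Pool.Agent.Helper63.QL.LemA
import Pool.Agent.Helper99.MS.Pigeon

/-! # Project QL: one-sided recurrence of exponential polynomials -/

set_option autoImplicit false

namespace Pool.Agent.Helper63.QL

open MeasureTheory Set Filter Topology Finset
open scoped BoundedContinuousFunction
open Pool.Agent.Helper99.MS (vol_pigeon)

theorem exp_norm1 (γ v : ℝ) : ‖Complex.exp (γ * v * Complex.I)‖ = 1 := by
  rw [show (γ : ℂ) * v * Complex.I = ((γ * v : ℝ) : ℂ) * Complex.I by push_cast; ring, Complex.norm_exp_ofReal_mul_I]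

/-- two translates are close on the half line, in the norm with the weight `e^(κ v)` -/
theorem pigeon1 (Γ : Finset ℝ) (b : ℝ → ℂ) (P : ℝ → ℂ)
    (hPdef : ∀ v, P v = ∑ γ ∈ Γ, b γ * Complex.exp (γ * v * Complex.I))
    {S ε τ₀ κ : ℝ} (J : ℕ) (hS : 0 ≤ S) (hε : 0 < ε) (hτ : 0 ≤ τ₀) (hκ : 0 ≤ κ)
    (hκJ : Real.exp (κ * (J * τ₀)) ≤ 2) (hP : ∀ v, 0 ≤ v → ‖P v‖ ≤ S * Real.exp (κ * v))
    (hc : (1 + 2 * (2 * S) / ε) ^ (2 * Γ.card) < J + 1) :
    ∃ i j : ℕ, i < j ∧ j ≤ J ∧ ∀ v, 0 ≤ v → ‖P (v + i * τ₀) - P (v + j * τ₀)‖ ≤ ε * Real.exp (κ * v) := by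
  classical
  let X := Set.Ici (0:ℝ)
  let e : ℝ → (X →ᵇ ℂ) := fun γ => BoundedContinuousFunction.ofNormedAddCommGroup
    (fun v : X => Complex.exp (γ * (v : ℝ) * Complex.I) * ((Real.exp (-(κ * (v : ℝ))) : ℝ) : ℂ)) (by fun_prop) 1 (by
      intro v
      rw [norm_mul, exp_norm1, one_mul, Complex.norm_real, Real.norm_of_nonneg (Real.exp_pos _).le]
      apply Real.exp_le_one_iff.2
      have : 0 ≤ (v : ℝ) := v.2
      have := mul_nonneg hκ this
      linarith)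
  let V : Submodule ℂ (X →ᵇ ℂ) := Submodule.span ℂ (↑(Γ.image e) : Set (X →ᵇ ℂ))
  have hfd : FiniteDimensional ℂ V := FiniteDimensional.span_finset ℂ _
  have hfr : Module.finrank ℂ V ≤ Γ.card := by
    refine (finrank_span_finset_le_card (R := ℂ) (Γ.image e)).trans ?_
    exact Finset.card_image_le
  have : FiniteDimensional ℝ V := FiniteDimensional.complexToReal V
  have hfr2 : Module.finrank ℝ V ≤ 2 * Γ.card := by
    have hfree : Module.Free ℂ V := Module.Free.of_divisionRing ℂ V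
    have h2 := Module.finrank_mul_finrank ℝ ℂ V
    rw [Complex.finrank_real_complex] at h2
    omega
  let _ : MeasurableSpace V := borel V
  have : BorelSpace V := ⟨rfl⟩
  let q : ℕ → (X →ᵇ ℂ) := fun j => ∑ γ ∈ Γ, (b γ * Complex.exp (γ * ((j * τ₀ : ℝ) : ℂ) * Complex.I)) • e γ
  have hqmem : ∀ j, q j ∈ V := by
    intro j
    apply Submodule.sum_mem
    intro γ hγ
    apply Submodule.smul_mem
    apply Submodule.subset_span
    exact Finset.mem_coe.2 (Finset.mem_image_of_mem e hγ)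
  have hqval : ∀ (j : ℕ) (v : X), q j v = P ((v : ℝ) + j * τ₀) * ((Real.exp (-(κ * (v : ℝ))) : ℝ) : ℂ) := by
    intro j v
    rw [hPdef]
    simp only [q, BoundedContinuousFunction.coe_sum, Finset.sum_apply, BoundedContinuousFunction.coe_smul,
      smul_eq_mul]
    rw [Finset.sum_mul]
    apply Finset.sum_congr rfl
    intro γ _
    simp only [e, BoundedContinuousFunction.coe_ofNormedAddCommGroup]
    have e1 : Complex.exp (γ * (((v : ℝ) + j * τ₀ : ℝ) : ℂ) * Complex.I) =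
        Complex.exp (γ * ((j * τ₀ : ℝ) : ℂ) * Complex.I) * Complex.exp (γ * (v : ℝ) * Complex.I) := by
      rw [← Complex.exp_add]
      congr 1
      push_cast
      ring
    rw [e1]
    ring
  have hqn : ∀ j ≤ J, ‖(⟨q j, hqmem j⟩ : V)‖ ≤ 2 * S := by
    intro j hj
    rw [Submodule.coe_norm]
    simp only
    rw [BoundedContinuousFunction.norm_le (by positivity)]
    intro v
    have hv : 0 ≤ (v : ℝ) := v.2
    have hj0 : 0 ≤ (j : ℝ) * τ₀ := by positivity
    rw [hqval, norm_mul, Complex.norm_real, Real.norm_of_nonneg (Real.exp_pos _).le]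
    have h1 := hP ((v : ℝ) + j * τ₀) (by linarith)
    have h2 : Real.exp (κ * ((v : ℝ) + j * τ₀)) * Real.exp (-(κ * (v : ℝ))) = Real.exp (κ * (j * τ₀)) := by
      rw [← Real.exp_add]
      congr 1
      ring
    have h3 : Real.exp (κ * (j * τ₀)) ≤ 2 := by
      refine le_trans (Real.exp_le_exp.2 ?_) hκJ
      gcongr
    calc ‖P ((v : ℝ) + j * τ₀)‖ * Real.exp (-(κ * (v : ℝ)))
        ≤ S * Real.exp (κ * ((v : ℝ) + j * τ₀)) * Real.exp (-(κ * (v : ℝ))) :=
          mul_le_mul_of_nonneg_right h1 (Real.exp_pos _).le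
      _ = S * Real.exp (κ * (j * τ₀)) := by rw [mul_assoc, h2]
      _ ≤ S * 2 := mul_le_mul_of_nonneg_left h3 hS
      _ = _ := by ring
  obtain ⟨i, j, hij, hjJ, hlt⟩ := vol_pigeon (V := V) J (fun j => ⟨q j, hqmem j⟩) (S := 2 * S) (by positivity) hε hqn (by
    refine lt_of_le_of_lt ?_ hc
    apply pow_le_pow_right₀ _ hfr2
    have : 0 ≤ 2 * (2 * S) / ε := by positivity
    linarith)
  have hlt' : ‖q i - q j‖ < ε := by
    have : ‖((⟨q i, hqmem i⟩ : V) - ⟨q j, hqmem j⟩ : V)‖ = ‖q i - q j‖ := by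
      rw [Submodule.coe_norm]
      rfl
    rw [← this]
    exact hlt
  refine ⟨i, j, hij, hjJ, fun v hv => ?_⟩
  have h5 := (q i - q j).norm_coe_le_norm ⟨v, hv⟩
  rw [BoundedContinuousFunction.sub_apply, hqval, hqval, ← sub_mul, norm_mul, Complex.norm_real,
    Real.norm_of_nonneg (Real.exp_pos _).le] at h5
  have h6 : ‖P (v + i * τ₀) - P (v + j * τ₀)‖ * Real.exp (-(κ * v)) ≤ ε := h5.trans hlt'.le
  have h7 : Real.exp (-(κ * v)) * Real.exp (κ * v) = 1 := by
    rw [← Real.exp_add]; simp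
  calc ‖P (v + i * τ₀) - P (v + j * τ₀)‖ = ‖P (v + i * τ₀) - P (v + j * τ₀)‖ * (Real.exp (-(κ * v)) * Real.exp (κ * v)) := by
        rw [h7, mul_one]
    _ = (‖P (v + i * τ₀) - P (v + j * τ₀)‖ * Real.exp (-(κ * v))) * Real.exp (κ * v) := by ring
    _ ≤ ε * Real.exp (κ * v) := mul_le_mul_of_nonneg_right h6 (Real.exp_pos _).le

/-- the integral of the bound of the difference -/
theorem D_int {η A T ε : ℝ} (hη : 0 < η) (hT : 0 ≤ T) {D : ℝ → ℂ}
    (h1 : ∀ u, 0 ≤ u → u ≤ T → ‖D u‖ ≤ A) (h2 : ∀ u, T ≤ u → ‖D u‖ ≤ ε * Real.exp (η / 4 * u)) :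
    ∫ u in Ioi (0:ℝ), ‖D u‖ ^ 2 * Real.exp (-(η * u)) ≤ A ^ 2 * T + ε ^ 2 * (2 / η) := by
  have i1 : IntegrableOn (fun u : ℝ => Real.exp (-(η / 2) * u)) (Ioi 0) := integrableOn_exp_mul_Ioi (by linarith) 0
  have i2 : IntegrableOn ((Icc (0:ℝ) T).indicator (fun _ => A ^ 2)) (Ioi 0) := by
    apply Integrable.integrableOn
    rw [integrable_indicator_iff measurableSet_Icc]
    exact integrableOn_const (by simp)
  have hle : ∫ u in Ioi (0:ℝ), ‖D u‖ ^ 2 * Real.exp (-(η * u)) ≤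
      ∫ u in Ioi (0:ℝ), ((Icc (0:ℝ) T).indicator (fun _ => A ^ 2) u + ε ^ 2 * Real.exp (-(η / 2) * u)) := by
    apply integral_mono_of_nonneg
    · exact Filter.Eventually.of_forall fun u => by positivity
    · exact i2.add (i1.const_mul _)
    · refine (ae_restrict_iff' measurableSet_Ioi).2 (Filter.Eventually.of_forall fun u hu => ?_)
      have hu0 : 0 ≤ u := le_of_lt hu
      simp only
      by_cases hT' : u ≤ T
      · rw [Set.indicator_of_mem (show u ∈ Icc (0:ℝ) T from ⟨hu0, hT'⟩)]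
        have h3 : ‖D u‖ ^ 2 ≤ A ^ 2 := pow_le_pow_left₀ (norm_nonneg _) (h1 u hu0 hT') 2
        have h4 : Real.exp (-(η * u)) ≤ 1 := by
          apply Real.exp_le_one_iff.2
          have := mul_nonneg hη.le hu0
          linarith
        have h5 : 0 ≤ ε ^ 2 * Real.exp (-(η / 2) * u) := by positivity
        have h6 : ‖D u‖ ^ 2 * Real.exp (-(η * u)) ≤ A ^ 2 * 1 := mul_le_mul h3 h4 (Real.exp_pos _).le (by positivity)
        linarith
      · rw [Set.indicator_of_notMem (show u ∉ Icc (0:ℝ) T from fun h => hT' h.2), zero_add]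
        have h3 : ‖D u‖ ^ 2 ≤ (ε * Real.exp (η / 4 * u)) ^ 2 :=
          pow_le_pow_left₀ (norm_nonneg _) (h2 u (by linarith)) 2
        calc ‖D u‖ ^ 2 * Real.exp (-(η * u)) ≤ (ε * Real.exp (η / 4 * u)) ^ 2 * Real.exp (-(η * u)) :=
              mul_le_mul_of_nonneg_right h3 (Real.exp_pos _).le
          _ = ε ^ 2 * Real.exp (-(η / 2) * u) := by
              rw [mul_pow, ← Real.exp_nat_mul, mul_assoc, ← Real.exp_add]
              congr 2
              push_cast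
              ring
  refine hle.trans (le_of_eq ?_)
  rw [integral_add i2 (i1.const_mul _), integral_const_mul, integral_exp_mul_Ioi (by linarith) 0,
    setIntegral_indicator measurableSet_Icc]
  have e1 : Ioi (0:ℝ) ∩ Icc 0 T = Ioc 0 T := by
    ext x
    simp only [Set.mem_inter_iff, Set.mem_Ioi, Set.mem_Icc, Set.mem_Ioc]
    constructor
    · rintro ⟨a, -, c⟩; exact ⟨a, c⟩
    · rintro ⟨a, c⟩; exact ⟨a, a.le, c⟩
  rw [e1, setIntegral_const, Real.volume_real_Ioc_of_le hT]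
  simp only [mul_zero, Real.exp_zero, smul_eq_mul, sub_zero]
  have : η ≠ 0 := hη.ne'
  field_simp

/-- **one-sided recurrence** -/
theorem recur1 (Γ : Finset ℝ) (hΓ : 1 ≤ Γ.card) (b : ℝ → ℂ) (P : ℝ → ℂ)
    (hPdef : ∀ v, P v = ∑ γ ∈ Γ, b γ * Complex.exp (γ * v * Complex.I))
    {M ε Y τ₀ : ℝ} (J : ℕ) (hM : 0 ≤ M) (hε : 0 < ε) (hτ : 1 ≤ τ₀) (hY : 1 ≤ Y)
    (hJ : (J : ℝ) * τ₀ ≤ Real.exp Y) (hP : ∀ v, 0 ≤ v → ‖P v‖ ≤ M * Real.exp (Real.exp (-(3 * Y)) / 4 * v))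
    (hc : (1 + 16 * M * Γ.card / ε) ^ (2 * Γ.card) < (J : ℝ) + 1) :
    ∃ n : ℕ, 1 ≤ n ∧ n ≤ J ∧ ‖P (n * τ₀) - P 0‖ < ε := by
  have hN : (1:ℝ) ≤ Γ.card := by exact_mod_cast hΓ
  set N : ℝ := (Γ.card : ℝ) with hNdef
  set η : ℝ := Real.exp (-(3 * Y)) with hη
  have hη0 : 0 < η := Real.exp_pos _
  have hE : 1 ≤ Real.exp Y := Real.one_le_exp (by linarith)
  have hηJ : η * (J * τ₀) ≤ Real.exp (-(2 * Y)) := by
    calc η * (J * τ₀) ≤ η * Real.exp Y := mul_le_mul_of_nonneg_left hJ hη0.le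
      _ = Real.exp (-(2 * Y)) := by rw [hη, ← Real.exp_add]; congr 1; ring
  have hE2 : Real.exp (-(2 * Y)) ≤ 1 := Real.exp_le_one_iff.2 (by linarith)
  have hJ0 : 0 ≤ (J : ℝ) * τ₀ := by positivity
  have hexp2 : ∀ x : ℝ, x ≤ 1 / 4 → Real.exp x ≤ 2 := by
    intro x hx
    have h1 : Real.exp x ≤ Real.exp (1 / 4) := Real.exp_le_exp.2 hx
    have h2 : Real.exp (1 / 4) ^ 4 = Real.exp 1 := by rw [← Real.exp_nat_mul]; norm_num
    have h3 := Real.exp_one_lt_d9
    have h4 : Real.exp (1 / 4) ≤ 2 := by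
      by_contra hcon
      push Not at hcon
      have : (2:ℝ) ^ 4 ≤ Real.exp (1 / 4) ^ 4 := pow_le_pow_left₀ (by norm_num) hcon.le 4
      rw [h2] at this
      norm_num at this
      linarith
    linarith
  set ε' : ℝ := ε / (4 * N) with hε'
  have hε'0 : 0 < ε' := by positivity
  obtain ⟨i, j, hij, hjJ, hcl⟩ := pigeon1 Γ b P hPdef (S := M) (ε := ε') (τ₀ := τ₀) (κ := η / 4) J hM hε'0
    (by linarith) (by positivity) (hexp2 _ (by nlinarith)) hP (by
      have e : 2 * (2 * M) / ε' = 16 * M * N / ε := by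
        rw [hε']
        field_simp
        ring
      rw [e]
      exact hc)
  refine ⟨j - i, by omega, by omega, ?_⟩
  have hcast : ((j - i : ℕ) : ℝ) = (j : ℝ) - i := Nat.cast_sub hij.le
  set n : ℝ := ((j - i : ℕ) : ℝ) with hn
  have hjJ' : (j : ℝ) ≤ J := by exact_mod_cast hjJ
  have hij' : (i : ℝ) ≤ j := by exact_mod_cast hij.le
  have hi0 : (0:ℝ) ≤ i := Nat.cast_nonneg i
  have hn0 : 0 ≤ n := by rw [hcast]; linarith
  have hτ0 : 0 < τ₀ := by linarith
  have hjτ : (j : ℝ) * τ₀ ≤ J * τ₀ := mul_le_mul_of_nonneg_right hjJ' hτ0.le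
  have hnτ : n * τ₀ = j * τ₀ - i * τ₀ := by rw [hcast]; ring
  have hiτ : 0 ≤ (i : ℝ) * τ₀ := by positivity
  -- the difference
  set D : ℝ → ℂ := fun u => ∑ γ ∈ Γ, (b γ * (Complex.exp (γ * (n * τ₀) * Complex.I) - 1)) * Complex.exp (γ * u * Complex.I) with hD
  have hDP : ∀ u, D u = P (u + n * τ₀) - P u := by
    intro u
    rw [hPdef, hPdef, ← Finset.sum_sub_distrib]
    simp only [hD]
    apply Finset.sum_congr rfl
    intro γ _
    have e1 : Complex.exp (γ * ((u + n * τ₀ : ℝ) : ℂ) * Complex.I) =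
        Complex.exp (γ * (n * τ₀) * Complex.I) * Complex.exp (γ * u * Complex.I) := by
      rw [← Complex.exp_add]
      congr 1
      push_cast
      ring
    rw [e1]
    ring
  have hD1 : ∀ u, 0 ≤ u → u ≤ i * τ₀ → ‖D u‖ ≤ 4 * M := by
    intro u hu0 hu
    rw [hDP]
    have hb : ∀ x : ℝ, 0 ≤ x → x ≤ J * τ₀ → ‖P x‖ ≤ 2 * M := by
      intro x hx0 hx
      refine (hP x hx0).trans ?_
      have h1 : Real.exp (η / 4 * x) ≤ 2 := by
        apply hexp2
        have := mul_le_mul_of_nonneg_left hx hη0.le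
        linarith
      nlinarith
    have h1 := hb (u + n * τ₀) (by positivity) (by rw [hnτ]; linarith)
    have h2 := hb u hu0 (by
      have : (i : ℝ) * τ₀ ≤ j * τ₀ := mul_le_mul_of_nonneg_right hij' hτ0.le
      linarith)
    refine (norm_sub_le _ _).trans ?_
    linarith
  have hD2 : ∀ u, i * τ₀ ≤ u → ‖D u‖ ≤ ε' * Real.exp (η / 4 * u) := by
    intro u hu
    rw [hDP]
    have h1 := hcl (u - i * τ₀) (by linarith)
    have e1 : u - i * τ₀ + i * τ₀ = u := by ring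
    have e2 : u - i * τ₀ + j * τ₀ = u + n * τ₀ := by rw [hnτ]; ring
    rw [e1, e2, norm_sub_rev] at h1
    refine h1.trans (mul_le_mul_of_nonneg_left (Real.exp_le_exp.2 ?_) hε'0.le)
    apply mul_le_mul_of_nonneg_left _ (by positivity)
    linarith
  have hint := D_int (A := 4 * M) (T := i * τ₀) hη0 hiτ hD1 hD2
  have hA := lemA hη0 Γ (fun γ => b γ * (Complex.exp (γ * (n * τ₀) * Complex.I) - 1))
  have hD0 : D 0 = ∑ γ ∈ Γ, b γ * (Complex.exp (γ * (n * τ₀) * Complex.I) - 1) := by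
    simp only [hD]
    apply Finset.sum_congr rfl
    intro γ _
    simp
  rw [← hD0] at hA
  have hA2 : ‖D 0‖ ^ 2 ≤ N * (η * ((4 * M) ^ 2 * (i * τ₀) + ε' ^ 2 * (2 / η))) := by
    refine hA.trans ?_
    apply mul_le_mul_of_nonneg_left _ (by positivity)
    exact mul_le_mul_of_nonneg_left hint hη0.le
  -- sizes
  have hiJ : η * (i * τ₀) ≤ Real.exp (-(2 * Y)) := by
    refine le_trans (mul_le_mul_of_nonneg_left ?_ hη0.le) hηJ
    have : (i : ℝ) * τ₀ ≤ j * τ₀ := mul_le_mul_of_nonneg_right hij' hτ0.le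
    linarith
  have hbase : (16 * M * N / ε) ^ 2 ≤ 2 * Real.exp Y := by
    have h0 : 0 ≤ 16 * M * N / ε := by positivity
    have h1 : (16 * M * N / ε) ^ 2 ≤ (1 + 16 * M * N / ε) ^ 2 := pow_le_pow_left₀ h0 (by linarith) 2
    have h2 : (1 + 16 * M * N / ε) ^ 2 ≤ (1 + 16 * M * N / ε) ^ (2 * Γ.card) :=
      pow_le_pow_right₀ (by linarith) (by omega)
    have h3 : (J : ℝ) ≤ Real.exp Y := by
      have : (J : ℝ) * 1 ≤ J * τ₀ := mul_le_mul_of_nonneg_left hτ (Nat.cast_nonneg J)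
      linarith
    linarith
  have hM2 : 16 * M ^ 2 * N * Real.exp (-(2 * Y)) ≤ ε ^ 2 / 8 := by
    have h1 : 256 * M ^ 2 * N ^ 2 ≤ 2 * Real.exp Y * ε ^ 2 := by
      rw [div_pow, div_le_iff₀ (by positivity)] at hbase
      calc 256 * M ^ 2 * N ^ 2 = (16 * M * N) ^ 2 := by ring
        _ ≤ _ := hbase
    have h2 : Real.exp Y * Real.exp (-(2 * Y)) ≤ 1 := by
      rw [← Real.exp_add]
      exact Real.exp_le_one_iff.2 (by linarith)
    have h3 : 256 * M ^ 2 * N ≤ 256 * M ^ 2 * N ^ 2 := by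
      apply mul_le_mul_of_nonneg_left _ (by positivity)
      nlinarith
    have h4 : 0 < Real.exp (-(2 * Y)) := Real.exp_pos _
    calc 16 * M ^ 2 * N * Real.exp (-(2 * Y)) = (256 * M ^ 2 * N) * Real.exp (-(2 * Y)) / 16 := by ring
      _ ≤ (2 * Real.exp Y * ε ^ 2) * Real.exp (-(2 * Y)) / 16 := by
          have h5 : 256 * M ^ 2 * N ≤ 2 * Real.exp Y * ε ^ 2 := by linarith
          have h6 := mul_le_mul_of_nonneg_right h5 h4.le
          linarith
      _ = (Real.exp Y * Real.exp (-(2 * Y))) * ε ^ 2 / 8 := by ring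
      _ ≤ 1 * ε ^ 2 / 8 := by gcongr
      _ = _ := by ring
  have hfin : N * (η * ((4 * M) ^ 2 * (i * τ₀) + ε' ^ 2 * (2 / η))) ≤ ε ^ 2 / 4 := by
    have e1 : N * (η * ((4 * M) ^ 2 * (i * τ₀) + ε' ^ 2 * (2 / η))) =
        16 * M ^ 2 * N * (η * (i * τ₀)) + 2 * N * ε' ^ 2 := by
      field_simp
      ring
    have e2 : 2 * N * ε' ^ 2 ≤ ε ^ 2 / 8 := by
      have : 2 * N * ε' ^ 2 = ε ^ 2 / (8 * N) := by
        rw [hε']
        field_simp
        ring
      rw [this]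
      apply div_le_div_of_nonneg_left (by positivity) (by norm_num)
      linarith
    rw [e1]
    have h5 : 16 * M ^ 2 * N * (η * (i * τ₀)) ≤ 16 * M ^ 2 * N * Real.exp (-(2 * Y)) :=
      mul_le_mul_of_nonneg_left hiJ (by positivity)
    linarith
  have hlast : ‖D 0‖ ^ 2 < ε ^ 2 := by
    have : 0 < ε ^ 2 := by positivity
    linarith
  have h0 : ‖D 0‖ < ε := lt_of_pow_lt_pow_left₀ 2 hε.le hlast
  rw [hDP, zero_add] at h0
  exact h0

end Pool.Agent.Helper63.QL
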